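import Pool.Agent.H366.GF.Fld
import Pool.Graph.R_seed8.TH358.BG.Main

/-!
# The complexes `Γ(X,n) ⊗ ℚ` of open subsets of `P^1_k`, `k` finite: all degrees

Let `k` be an algebraic extension of `F_p`, for instance a finite field, and `X` a nonempty open
subset of `P^1_k`, with function field `F = k(x)` and residue fields `κ(x)`, `x ∈ X` closed.
Then the complexes `Γ(X,n) ⊗ ℚ` are acyclic for all `n ≥ 2`, in all degrees.  On the side of
`K`-theory `gr_n K_m(X)_ℚ = 0` for `n ≥ 2` and all `m` (Harder, Quillen).

The library has this for infinite `k`, and for finite `k` only the degrees `1`, `n - 1`, `n` and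
`n + 1` (`OpenSubsetsAllConstants`).  For finite `k` the proof uses the circle method over `k[x]`,
see `Pool/Agent/Results/MP_9c6ec7_al/GlobalFieldsAllDegrees.lean`.

The definitions are in `H39R2/GonP/Defs.lean` and `TH358/BG/Defs.lean` of the library. The
set `X` of closed points, the residue fields (algebraic over `F_p`) and the residue maps are
arbitrary.
-/

set_option autoImplicit false

namespace Pool.Agent.Results.MP_bae8ce_ag.OpenSubsetsAllDegrees

open GonP Pool.Agent.TH358.BG

theorem result (p : ℕ) [Fact p.Prime] (k : Type) [Field k] [Algebra (ZMod p) k]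
    [Algebra.IsAlgebraic (ZMod p) k] :
    Nonempty (Differentials (RatFunc k)) ∧
    ∀ (X : Type) (κ : X → Type) [∀ x, Field (κ x)] [∀ x, Algebra (ZMod p) (κ x)]
      [∀ x, Algebra.IsAlgebraic (ZMod p) (κ x)],
      (∀ x, Nonempty (Differentials (κ x))) ∧
      ∀ (DF : Differentials (RatFunc k)) (Dκ : ∀ x, Differentials (κ x))
        (res : Res (RatFunc k) κ), XAcyclic DF Dκ res := by
  obtain ⟨⟨D⟩, h1⟩ := Pool.Agent.H366.GF.locRat_acyclic (RatFunc k)
    (Pool.Agent.H366.GF.locRat_ratFunc p k)
  refine ⟨⟨ofD D⟩, fun X κ _ _ _ => ⟨fun x => nonempty_diff p (κ x),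
    fun DF Dκ res => ?_⟩⟩
  have hD : ofD D = DF := unique DF (ofD D)
  have hA : DF.Acyclic := by
    rw [← hD]
    exact ofD_acyclic D (h1 D)
  exact (xacyclic _ _ DF Dκ res (generic p (RatFunc k) κ DF Dκ res)).2 hA

end Pool.Agent.Results.MP_bae8ce_ag.OpenSubsetsAllDegrees
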